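import Pool.Agent.H308R2.ZS.Stubs

/-! Task LBX: from an element without atoms to `C([0,1])`. -/

set_option autoImplicit false

open scoped ComplexConjugate Kronecker Matrix.Norms.L2Operator
open MeasureTheory

namespace Pool.Agent.H308R2.ZS.T_LBX

open Pool.Agent.H923R2.FP Pool.Agent.H923R2.FZ Pool.Agent.H308R2.ZS

theorem noatom {B : Type} [CStarAlgebra B] (τ : B →ₗ[ℂ] ℂ) (x : B)
    (hAT : ∀ ε : ℝ, 0 < ε → AT τ ε x) (μ : Measure ℝ) (hμ : IsProbabilityMeasure μ)
    (hsupp : μ (Set.Icc (-‖x‖) ‖x‖)ᶜ = 0)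
    (hint : ∀ F : ℝ → ℝ, Continuous F → τ (cfc F x) = ((∫ t, F t ∂μ : ℝ) : ℂ)) (c : ℝ) :
    μ {c} = 0 := by
  by_contra hne
  have hpos : 0 < μ.real {c} := by
    rw [Measure.real, ENNReal.toReal_pos_iff]
    exact ⟨pos_iff_ne_zero.2 hne, measure_lt_top _ _⟩
  obtain ⟨F, hF, hF0, hF1, hFlt⟩ := hAT _ hpos c
  rw [hint F hF, Complex.ofReal_re] at hFlt
  have hae : ∀ᵐ t ∂μ, t ∈ Set.Icc (-‖x‖) ‖x‖ := by
    rw [ae_iff]
    exact hsupp
  obtain ⟨M, hM⟩ : ∃ M : ℝ, ∀ t ∈ Set.Icc (-‖x‖) ‖x‖, ‖F t‖ ≤ M :=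
    isCompact_Icc.exists_bound_of_continuousOn hF.continuousOn
  have hFi : Integrable F μ := by
    apply Integrable.of_bound hF.aestronglyMeasurable M
    filter_upwards [hae] with t ht using hM t ht
  have h1 : ∫ t, Set.indicator {c} (fun _ => (1 : ℝ)) t ∂μ ≤ ∫ t, F t ∂μ := by
    apply integral_mono _ hFi
    · intro t
      by_cases ht : t = c
      · subst ht
        simp [hF1]
      · simp only [Set.indicator, Set.mem_singleton_iff, ht, if_false]
        exact hF0 t
    · exact (integrable_const _).indicator (measurableSet_singleton c)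
  rw [integral_indicator (measurableSet_singleton c)] at h1
  simp only [integral_const, smul_eq_mul, mul_one] at h1
  rw [measureReal_restrict_apply_univ] at h1
  linarith

theorem t_LBX (hLAWM : S_LAWM) (hCDF : S_CDF) : S_LBX := by
  intro B _ τ hτ x hx hAT
  obtain ⟨μ, hμ, hsupp, hint⟩ := hLAWM B τ hτ x hx
  obtain ⟨G, hG⟩ := hCDF μ hμ (noatom τ x hAT μ hμ hsupp hint)
  have hsa : IsSelfAdjoint x := hx
  have hn : IsStarNormal x := hsa.isStarNormal
  set s : C(spectrum ℂ x, unitInterval) :=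
    ⟨fun z => G (z : ℂ).re, G.continuous.comp (Complex.continuous_re.comp continuous_subtype_val)⟩
    with hs
  set c : C(unitInterval, ℂ) →⋆ₐ[ℂ] B :=
    (cfcHom (R := ℂ) (a := x) hn).comp (ContinuousMap.compStarAlgHom' ℂ ℂ s) with hc
  have hreal : ∀ (u : C(unitInterval, ℝ)) (g : C(unitInterval, ℂ)),
      (∀ t, g t = ((u t : ℝ) : ℂ)) → τ (c g) = ((∫ t : unitInterval, u t : ℝ) : ℂ) := by
    intro u g hg
    have hcont : Continuous (fun t : ℝ => u (G t)) := u.continuous.comp G.continuous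
    have h1 : c g = cfc (fun t : ℝ => u (G t)) x := by
      rw [cfc_real_eq_complex (fun t : ℝ => u (G t)) hsa, cfc_apply (hf := by fun_prop)]
      rw [hc]
      simp only [StarAlgHom.comp_apply]
      congr 1
      ext z
      simp [hs, hg]
    rw [h1, hint _ hcont]
    congr 1
    rw [← hG, integral_map G.continuous.aemeasurable]
    exact u.continuous.aestronglyMeasurable
  refine ⟨c, fun f => ?_⟩
  set u : C(unitInterval, ℝ) := ⟨fun t => (f t).re, by fun_prop⟩ with hu
  set v : C(unitInterval, ℝ) := ⟨fun t => (f t).im, by fun_prop⟩ with hv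
  set gu : C(unitInterval, ℂ) := ⟨fun t => ((u t : ℝ) : ℂ), by fun_prop⟩ with hgu
  set gv : C(unitInterval, ℂ) := ⟨fun t => ((v t : ℝ) : ℂ), by fun_prop⟩ with hgv
  have hf : f = gu + Complex.I • gv := by
    ext t
    simp only [ContinuousMap.add_apply, ContinuousMap.smul_apply, smul_eq_mul, hgu, hgv,
      ContinuousMap.coe_mk, hu, hv]
    rw [mul_comm, Complex.re_add_im]
  have hτf : τ (c f) = ((∫ t : unitInterval, u t : ℝ) : ℂ) +
      Complex.I * ((∫ t : unitInterval, v t : ℝ) : ℂ) := by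
    rw [hf, map_add, map_smul, map_add, map_smul, hreal u gu (fun _ => rfl),
      hreal v gv (fun _ => rfl), smul_eq_mul]
  rw [hτf]
  unfold leb
  have hui : Integrable (fun t : unitInterval => f t) :=
    Integrable.of_bound f.continuous.aestronglyMeasurable ‖f‖
      (Filter.Eventually.of_forall fun t => f.norm_coe_le_norm t)
  have h1 := integral_re_add_im (𝕜 := ℂ) hui
  rw [← h1]
  change _ = (((∫ t : unitInterval, (f t).re : ℝ)) : ℂ) +
    (((∫ t : unitInterval, (f t).im : ℝ)) : ℂ) * Complex.I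
  rw [mul_comm Complex.I]
  rfl

end Pool.Agent.H308R2.ZS.T_LBX
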